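import Pool.Agent.Y476.RM.Stm

/-!
# Job Y476-HM CLOSE
-/

set_option autoImplicit false
open MeasureTheory Filter Topology Set
open scoped ENNReal

namespace Pool.Agent.Y25.HM

open Pool.Agent.Y476.RM

theorem td_mono {ν : Measure TT} {s : TT} {e e' : ℝ} (h : TD ν s e) (he : e ≤ e') :
    TD ν s e' := fun φ hφ => (h φ hφ).trans he

theorem td_neg {ν : Measure TT} {s : TT} {e : ℝ} (h : TD ν s e) : TD ν (-s) e := by
  intro φ hφ
  have h1 := h (φ.comp ⟨fun x => x + -s, by fun_prop⟩) (fun x => hφ _)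
  simp only [ContinuousMap.comp_apply, ContinuousMap.coe_mk] at h1
  rw [abs_sub_comm] at h1
  simpa using h1

theorem td_add {ν : Measure TT} {s t : TT} {e e' : ℝ} (h : TD ν s e) (h' : TD ν t e') :
    TD ν (s + t) (e + e') := by
  intro φ hφ
  have h1 := h (φ.comp ⟨fun x => x + t, by fun_prop⟩) (fun x => hφ _)
  have h2 := h' φ hφ
  simp only [ContinuousMap.comp_apply, ContinuousMap.coe_mk] at h1
  have h3 : (∫ x, φ (x + (s + t)) ∂ν) = ∫ x, φ (x + s + t) ∂ν := by
    simp only [add_assoc]
  rw [h3]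
  calc |∫ x, φ (x + s + t) ∂ν - ∫ x, φ x ∂ν|
      = |(∫ x, φ (x + s + t) ∂ν - ∫ x, φ (x + t) ∂ν) + (∫ x, φ (x + t) ∂ν - ∫ x, φ x ∂ν)| := by
        congr 1; ring
    _ ≤ _ := abs_add_le _ _
    _ ≤ e + e' := add_le_add h1 h2

theorem td_closed {ν : Measure TT} [IsFiniteMeasure ν] {s : TT} {e : ℝ} {u : ℕ → TT}
    (hu : Tendsto u atTop (𝓝 s)) (h : ∀ n, TD ν (u n) e) : TD ν s e := by
  intro φ hφ
  have hc : Continuous (fun s : TT => ∫ x, φ (x + s) ∂ν) := by
    apply continuous_of_dominated (bound := fun _ => (1 : ℝ))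
    · intro s
      exact (Continuous.aestronglyMeasurable (by fun_prop))
    · intro s
      exact Eventually.of_forall (fun x => by simpa using hφ _)
    · exact integrable_const _
    · exact Eventually.of_forall (fun x => by fun_prop)
  have h1 : Tendsto (fun n => |∫ x, φ (x + u n) ∂ν - ∫ x, φ x ∂ν|) atTop
      (𝓝 (|∫ x, φ (x + s) ∂ν - ∫ x, φ x ∂ν|)) :=
    ((hc.tendsto s).comp hu |>.sub_const _).abs
  exact le_of_tendsto h1 (Eventually.of_forall (fun n => h n φ hφ))

/-- Closed sets. -/
theorem td_isClosed {ν : Measure TT} [IsFiniteMeasure ν] {t : TT} {e : ℝ} (h : TD ν t e)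
    {K : Set TT} (hK : IsClosed K) : ν.real K ≤ ν.real ((fun y => y + t) ⁻¹' K) + e := by
  have hpos : ∀ n : ℕ, (0 : ℝ) < 1 / ((n : ℝ) + 1) := fun n => by positivity
  let f : ℕ → TT → ℝ := fun n x => ((thickenedIndicator (hpos n) K x : NNReal) : ℝ)
  have hfc : ∀ n, Continuous (f n) := fun n =>
    NNReal.continuous_coe.comp (thickenedIndicator (hpos n) K).continuous
  have hfb : ∀ n x, |f n x| ≤ 1 := by
    intro n x
    have h1 : (thickenedIndicator (hpos n) K x) ≤ 1 := thickenedIndicator_le_one (hpos n) K x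
    rw [abs_of_nonneg (NNReal.coe_nonneg _)]
    exact_mod_cast h1
  have hlim : ∀ x, Tendsto (fun n => f n x) atTop (𝓝 (K.indicator (fun _ => (1 : ℝ)) x)) := by
    intro x
    have h1 := thickenedIndicator_tendsto_indicator_closure hpos
      (tendsto_one_div_add_atTop_nhds_zero_nat) K
    rw [hK.closure_eq] at h1
    have h2 := (tendsto_pi_nhds.mp h1) x
    have h3 := (NNReal.continuous_coe.tendsto _).comp h2
    have h4 : ((K.indicator (fun _ => (1 : NNReal)) x : NNReal) : ℝ)
        = K.indicator (fun _ => (1 : ℝ)) x := by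
      by_cases hx : x ∈ K <;> simp [hx]
    rw [h4] at h3
    exact h3
  have hI : ∀ g : TT → TT, Continuous g → Tendsto (fun n => ∫ x, f n (g x) ∂ν) atTop
      (𝓝 (ν.real (g ⁻¹' K))) := by
    intro g hg
    have h1 : ∫ x, K.indicator (fun _ => (1 : ℝ)) (g x) ∂ν = ν.real (g ⁻¹' K) := by
      have : (fun x => K.indicator (fun _ => (1 : ℝ)) (g x))
          = (g ⁻¹' K).indicator (fun _ => (1 : ℝ)) := by
        ext x
        by_cases hx : g x ∈ K <;> simp [hx]
      rw [this, integral_indicator (hg.measurable hK.measurableSet)]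
      simp
    rw [← h1]
    apply tendsto_integral_of_dominated_convergence (fun _ => (1 : ℝ))
    · intro n
      exact ((hfc n).comp hg).aestronglyMeasurable
    · exact integrable_const _
    · intro n
      exact Eventually.of_forall (fun x => by simpa using hfb n (g x))
    · exact Eventually.of_forall (fun x => hlim (g x))
  have h1 := hI id continuous_id
  have h2 := hI (fun y => y + t) (by fun_prop)
  have h3 : ∀ n, ∫ x, f n (id x) ∂ν ≤ ∫ x, f n (x + t) ∂ν + e := by
    intro n
    have := h ⟨f n, hfc n⟩ (hfb n)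
    simp only [ContinuousMap.coe_mk] at this
    have := (abs_le.mp this).1
    simp only [id]
    linarith
  exact le_of_tendsto_of_tendsto' h1 (h2.add_const e) h3

/-- Almost every translate of a null set is null for the other measure. -/
theorem ae_translate_null (ν : Measure TT) [IsFiniteMeasure ν] {K : Set TT}
    (hK : MeasurableSet K) (h0 : (volume : Measure TT) K = 0) :
    ∀ᵐ t ∂(volume : Measure TT), ν ((fun y => y + t) ⁻¹' K) = 0 := by
  have hm : Measurable (fun p : TT × TT => p.1 + p.2) := by fun_prop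
  have h1 : (ν.prod (volume : Measure TT)) ((fun p : TT × TT => p.1 + p.2) ⁻¹' K) = 0 := by
    rw [Measure.measure_prod_null (hm hK)]
    refine Eventually.of_forall (fun y => ?_)
    show (volume : Measure TT) ((fun t => y + t) ⁻¹' K) = 0
    rw [measure_preimage_add]
    exact h0
  have h2 : ((volume : Measure TT).prod ν) ((fun p : TT × TT => p.2 + p.1) ⁻¹' K) = 0 := by
    rw [← Measure.prod_swap, Measure.map_apply measurable_swap (by
      exact (show Measurable (fun p : TT × TT => p.2 + p.1) by fun_prop) hK)]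
    exact h1
  rw [Measure.measure_prod_null (by
      exact (show Measurable (fun p : TT × TT => p.2 + p.1) by fun_prop) hK)] at h2
  exact h2

theorem exists_rep (u : TT) : ∃ r : ℝ, (r : TT) = u ∧ |r| = ‖u‖ := by
  obtain ⟨x, rfl⟩ := QuotientAddGroup.mk_surjective u
  refine ⟨x - round x, ?_, ?_⟩
  · have h1 : ((round x : ℝ) : AddCircle (1 : ℝ)) = 0 := by
      rw [AddCircle.coe_eq_zero_iff]
      exact ⟨round x, by simp⟩
    have : ((x - round x : ℝ) : AddCircle (1 : ℝ)) = (x : AddCircle (1 : ℝ)) - ((round x : ℝ) :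
      AddCircle (1 : ℝ)) := rfl
    rw [this, h1, sub_zero]
  · exact (UnitAddCircle.norm_eq (x := x)).symm

theorem norm_coe_le (r : ℝ) : ‖(r : TT)‖ ≤ |r| := by
  have h : ‖(r : TT)‖ = |r - round r| := UnitAddCircle.norm_eq (x := r)
  rw [h]
  have := round_le r 0
  simpa using this

theorem t : S_CLOSE := by
  intro ν _ A hA h1 h2
  obtain ⟨η0, δ0, hη0, hδ0, h2⟩ := h2
  obtain ⟨η1, hη1, h1'⟩ := h1 (δ0 / 4) (by positivity)
  set η := min η0 η1 with hη
  have hηp : 0 < η := lt_min hη0 hη1
  -- the set Q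
  have hQadd : ∀ s t : TT, TD ν s (δ0 / 4) → TD ν t (δ0 / 4) → ‖s + t‖ < η →
      TD ν (s + t) (δ0 / 4) := by
    intro s t hs ht hst
    obtain ⟨x, hx, x', hx', he⟩ := h2 (s + t) (hst.trans_le (min_le_left _ _))
      (td_mono (td_add hs ht) (by linarith))
    rw [he] at hst ⊢
    exact h1' x hx x' hx' (hst.trans_le (min_le_right _ _))
  -- small elements
  have hsmall : ∀ e : ℝ, 0 < e → ∃ τ : ℝ, 0 < τ ∧ τ < e ∧ TD ν (τ : TT) (δ0 / 4) := by
    intro e he
    set e' := min e η1 with he'
    have he'p : 0 < e' := lt_min he hη1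
    obtain ⟨a, ha, b, hb, hab, hd⟩ : ∃ a ∈ A, ∃ b ∈ A, a ≠ b ∧ dist a b < e' := by
      obtain ⟨T, -, hT, hcov⟩ := Metric.totallyBounded_iff.mp
        (isCompact_univ (X := TT)).totallyBounded (e' / 2) (by positivity) |>.imp
          (fun T h => (⟨trivial, h.1, h.2⟩ : True ∧ _ ∧ _))
      have hch : ∀ x : TT, ∃ y ∈ T, dist x y < e' / 2 := by
        intro x
        have := hcov (Set.mem_univ x)
        simp only [Set.mem_iUnion, Metric.mem_ball] at this
        obtain ⟨y, hy, hxy⟩ := this
        exact ⟨y, hy, hxy⟩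
      choose g hg hgd using hch
      obtain ⟨a, ha, b, hb, hab, hgab⟩ := hA.exists_ne_map_eq_of_mapsTo (f := g) (t := T)
        (fun x _ => hg x) hT
      refine ⟨a, ha, b, hb, hab, ?_⟩
      calc dist a b ≤ dist a (g a) + dist b (g a) := dist_triangle_right _ _ _
        _ < e' / 2 + e' / 2 := by
            apply add_lt_add (hgd a)
            rw [hgab]
            exact hgd b
        _ = e' := by ring
    obtain ⟨r, hr, hrn⟩ := exists_rep (a - b)
    have hab' : ‖a - b‖ < e' := by rwa [← dist_eq_norm]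
    have hpos : 0 < ‖a - b‖ := norm_pos_iff.mpr (sub_ne_zero.mpr hab)
    have htd : TD ν (a - b) (δ0 / 4) := h1' a ha b hb (hab'.trans_le (min_le_right _ _))
    refine ⟨|r|, hrn ▸ hpos, hrn ▸ hab'.trans_le (min_le_left _ _), ?_⟩
    rcases abs_choice r with hh | hh
    · rw [hh, hr]; exact htd
    · rw [hh]
      have : ((-r : ℝ) : TT) = -(r : TT) := rfl
      rw [this, hr]
      exact td_neg htd
  -- all nonnegative reals
  have hreal : ∀ r : ℝ, 0 ≤ r → r < η → TD ν (r : TT) (δ0 / 4) := by
    intro r hr hrη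
    choose τ hτ0 hτ1 hτ using fun n : ℕ => hsmall (1 / ((n : ℝ) + 1)) (by positivity)
    have hmul : ∀ n j : ℕ, (j : ℝ) * τ n < η → TD ν (((j : ℝ) * τ n : ℝ) : TT) (δ0 / 4) := by
      intro n j
      induction j with
      | zero =>
        intro _ φ hφ
        simp
        positivity
      | succ j ih =>
        intro hj
        have h3 : ((j : ℝ) * τ n) < η := by
          push_cast at hj
          nlinarith [hτ0 n]
        have h4 : (((j + 1 : ℕ) : ℝ) * τ n : ℝ) = (j : ℝ) * τ n + τ n := by push_cast; ring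
        rw [h4] at hj ⊢
        have h5 : (((j : ℝ) * τ n + τ n : ℝ) : TT) = (((j : ℝ) * τ n : ℝ) : TT) + ((τ n : ℝ) : TT)
          := rfl
        rw [h5]
        apply hQadd _ _ (ih h3) (hτ n)
        rw [← h5]
        refine (norm_coe_le _).trans_lt ?_
        rwa [abs_of_nonneg (by have := hτ0 n; positivity)]
    set v : ℕ → ℝ := fun n => (⌊r / τ n⌋₊ : ℝ) * τ n with hv
    have hv1 : ∀ n : ℕ, v n ≤ r := by
      intro n
      have := Nat.floor_le (div_nonneg hr (hτ0 n).le)
      calc v n ≤ (r / τ n) * τ n := mul_le_mul_of_nonneg_right this (hτ0 n).le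
        _ = r := div_mul_cancel₀ _ (hτ0 n).ne'
    have hv2 : ∀ n : ℕ, r - 1 / ((n : ℝ) + 1) ≤ v n := by
      intro n
      have := (Nat.lt_floor_add_one (r / τ n)).le
      have h3 : r ≤ ((⌊r / τ n⌋₊ : ℝ) + 1) * τ n := by
        calc r = (r / τ n) * τ n := (div_mul_cancel₀ _ (hτ0 n).ne').symm
          _ ≤ _ := mul_le_mul_of_nonneg_right this (hτ0 n).le
      have h4 := hτ1 n
      simp only [hv]
      linarith
    have hvt : Tendsto v atTop (𝓝 r) := by
      refine tendsto_of_tendsto_of_tendsto_of_le_of_le ?_ tendsto_const_nhds hv2 hv1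
      have := (tendsto_one_div_add_atTop_nhds_zero_nat (𝕜 := ℝ)).const_sub r
      simpa using this
    have hvt' : Tendsto (fun n => (v n : TT)) atTop (𝓝 (r : TT)) :=
      ((AddCircle.continuous_mk' (1 : ℝ)).tendsto r).comp hvt
    exact td_closed hvt' (fun n => hmul n _ ((hv1 n).trans_lt hrη))
  have hall : ∀ u : TT, ‖u‖ < η → TD ν u (δ0 / 4) := by
    intro u hu
    obtain ⟨r, hr, hrn⟩ := exists_rep u
    rcases le_total 0 r with h0 | h0
    · rw [← hr]
      exact hreal r h0 (by rwa [← hrn, abs_of_nonneg h0] at hu)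
    · have h3 : TD ν ((-r : ℝ) : TT) (δ0 / 4) :=
        hreal (-r) (by linarith) (by rwa [← hrn, abs_of_nonpos h0] at hu)
      have h4 : u = -((-r : ℝ) : TT) := by
        rw [← hr]
        have : ((-r : ℝ) : TT) = -(r : TT) := rfl
        rw [this, neg_neg]
      rw [h4]
      exact td_neg h3
  have hcont : ∀ e : ℝ, 0 < e → ∃ η' : ℝ, 0 < η' ∧ ∀ u : TT, ‖u‖ < η' → TD ν u e := by
    intro e he
    obtain ⟨η2, hη2, h3⟩ := h1 e he
    refine ⟨min η η2, lt_min hηp hη2, fun u hu => ?_⟩
    have hu1 : ‖u‖ < η := hu.trans_le (min_le_left _ _)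
    obtain ⟨x, hx, x', hx', he'⟩ := h2 u (hu1.trans_le (min_le_left _ _))
      (td_mono (hall u hu1) (by linarith))
    have hu2 : ‖u‖ < η2 := hu.trans_le (min_le_right _ _)
    rw [he'] at hu2 ⊢
    exact h3 x hx x' hx' hu2
  -- absolute continuity
  refine Measure.AbsolutelyContinuous.mk (fun N hN hN0 => ?_)
  rw [hN.measure_eq_iSup_isCompact_of_ne_top (measure_ne_top ν N)]
  simp only [ENNReal.iSup_eq_zero]
  intro K hKN hK
  have hK0 : (volume : Measure TT) K = 0 := measure_mono_null hKN hN0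
  have hKc : IsClosed K := hK.isClosed
  have hae := ae_translate_null ν hKc.measurableSet hK0
  have hle : ∀ e : ℝ, 0 < e → ν.real K ≤ e := by
    intro e he
    obtain ⟨η', hη', h3⟩ := hcont e he
    have hpos : 0 < (volume : Measure TT) (Metric.ball 0 η') :=
      Metric.measure_ball_pos _ _ hη'
    obtain ⟨u, hu1, hu2⟩ : ∃ u ∈ Metric.ball (0 : TT) η', ν ((fun y => y + u) ⁻¹' K) = 0 := by
      by_contra hcon
      push Not at hcon
      have : (volume : Measure TT) (Metric.ball 0 η') = 0 :=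
        measure_mono_null (fun u hu => hcon u hu) hae
      exact hpos.ne' this
    have h4 := td_isClosed (h3 u (by simpa using hu1)) hKc
    have h5 : ν.real ((fun y => y + u) ⁻¹' K) = 0 := by
      rw [measureReal_def, hu2]; rfl
    rw [h5, zero_add] at h4
    exact h4
  have h6 : ν.real K ≤ 0 := le_of_forall_pos_le_add (fun e he => by simpa using hle e he)
  have h7 : ν.real K = 0 := le_antisymm h6 measureReal_nonneg
  exact (measureReal_eq_zero_iff (measure_ne_top ν K)).mp h7

end Pool.Agent.Y25.HM
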